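import Mathlib
import Pool.Agent.Lib.helper22.UTower

set_option autoImplicit false

namespace Pool.Agent.Results.MP_41ff45_gt.Separated

open Set

/-- `𝒰` is a k-cover: open sets, every compact set lies inside a member -/
def KCover {X : Type} [TopologicalSpace X] (𝒰 : Set (Set X)) : Prop :=
  (∀ U ∈ 𝒰, IsOpen U) ∧ ∀ K : Set X, IsCompact K → ∃ U ∈ 𝒰, K ⊆ U

/-- P2 has a winning Markov strategy in the game with finite selections -/
def MarkovKMenger (X : Type) [TopologicalSpace X] : Prop :=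
  ∃ σ : Set (Set X) → ℕ → Set (Set X), ∀ 𝒰 : ℕ → Set (Set X), (∀ n, KCover (𝒰 n)) →
    (∀ n, (σ (𝒰 n) n).Finite ∧ σ (𝒰 n) n ⊆ 𝒰 n) ∧ KCover (⋃ n, σ (𝒰 n) n)

/-- P2 has a winning Markov strategy in the game with single selections -/
def MarkovKRothberger (X : Type) [TopologicalSpace X] : Prop :=
  ∃ σ : Set (Set X) → ℕ → Set X, ∀ 𝒰 : ℕ → Set (Set X), (∀ n, KCover (𝒰 n)) →
    (∀ n, σ (𝒰 n) n ∈ 𝒰 n) ∧ KCover (range fun n => σ (𝒰 n) n)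

open Pool.Agent.Lib.helper22.UTower

theorem result : ∃ (X : Type) (_ : TopologicalSpace X), T1Space X ∧
    MarkovKMenger X ∧ ¬ MarkovKRothberger X := by
  refine ⟨Tw, inferInstance, inferInstance, ?_, ?_⟩
  · obtain ⟨σ, hσ⟩ := markov
    refine ⟨σ, fun 𝒰 h => ?_⟩
    obtain ⟨h1, h2⟩ := hσ 𝒰 h
    refine ⟨h1, ?_, fun K hK => ?_⟩
    · intro U hU
      obtain ⟨n, hn⟩ := mem_iUnion.1 hU
      exact (h n).1 U ((h1 n).2 hn)
    · obtain ⟨n, U, hU, hKU⟩ := h2 K hK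
      exact ⟨U, mem_iUnion.2 ⟨n, hU⟩, hKU⟩
  · rintro ⟨σ, hσ⟩
    obtain ⟨𝒰, h1, h2⟩ := noRoth
    obtain ⟨hU, -, hk⟩ := hσ 𝒰 h1
    obtain ⟨x, hx⟩ := h2 _ hU
    obtain ⟨_, ⟨n, rfl⟩, hn⟩ := hk {x} isCompact_singleton
    exact hx n (hn rfl)

end Pool.Agent.Results.MP_41ff45_gt.Separated
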